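import Mathlib

set_option autoImplicit false
open Filter

namespace Pool.Agent.Results.MP_678d3c_nt.BaseFive

/-- The `5x+1` map (restricted to natural numbers). -/
def T5 (x : ℕ) : ℕ := if x % 2 = 0 then x / 2 else (5 * x + 1) / 2

/-! ### Equidistribution from differences tending to an irrational number -/

lemma block_count (q : ℕ) (hq : 0 < q) (p : ℤ) (hpq : IsCoprime p (q : ℤ)) (x : ℝ)
    (w : ℕ → ℝ) (z : ℕ → ℤ)
    (hw : ∀ j < q, |w j - (x + j * ((p : ℝ) / q) + z j)| ≤ 2 / q)
    (a b : ℝ) (ha : 0 ≤ a) (hb : b ≤ 1) :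
    (q : ℝ) * (b - a) - 6 ≤
      (((Finset.range q).filter fun j => a ≤ Int.fract (w j) ∧ Int.fract (w j) < b).card : ℝ) := by
  have hq0 : (0 : ℝ) < q := by exact_mod_cast hq
  obtain ⟨u, v, huv⟩ := hpq
  set m : ℤ := ⌊(q : ℝ) * x⌋ with hm
  set g : ℕ → ℕ := fun j => (((j : ℤ) * p + m) % (q : ℤ)).toNat with hg
  have hsub : Finset.Ico ⌈a * q + 2⌉₊ ⌈b * q - 3⌉₊ ⊆
      ((Finset.range q).filter
        fun j => a ≤ Int.fract (w j) ∧ Int.fract (w j) < b).image g := by
    intro i hi
    rw [Finset.mem_Ico, Nat.ceil_le, Nat.lt_ceil] at hi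
    obtain ⟨hi1, hi2⟩ := hi
    have hiq : i < q := by
      have : (i : ℝ) < q := by nlinarith
      exact_mod_cast this
    rw [Finset.mem_image]
    set jz : ℤ := (((i : ℤ) - m) * u) % (q : ℤ) with hjz
    have hqz : (0 : ℤ) < q := by exact_mod_cast hq
    have hjz0 : 0 ≤ jz := Int.emod_nonneg _ hqz.ne'
    have hjzq : jz < q := Int.emod_lt_of_pos _ hqz
    obtain ⟨j, hj⟩ := Int.eq_ofNat_of_zero_le hjz0
    have hjq : j < q := by
      rw [hj] at hjzq; exact_mod_cast hjzq
    have hdvd : (q : ℤ) ∣ ((j : ℤ) * p + m) - i := by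
      have h1 : (q : ℤ) ∣ (((i : ℤ) - m) * u) - jz := by
        rw [hjz]; exact Int.dvd_self_sub_emod
      have h2 : ((j : ℤ) * p + m) - i = -((((i : ℤ) - m) * u) - jz) * p
          + (-(((i : ℤ) - m) * v)) * q := by
        rw [← hj]
        have : ((i : ℤ) - m) * (u * p + v * q) = ((i : ℤ) - m) := by rw [huv, mul_one]
        linear_combination this
      rw [h2]
      exact dvd_add (Dvd.dvd.mul_right (by rw [dvd_neg]; exact h1) p) (Dvd.intro_left _ rfl)
    obtain ⟨t, ht⟩ := hdvd
    have hgj : g j = i := by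
      simp only [hg]
      have h3 : ((j : ℤ) * p + m) = i + q * t := by linarith
      rw [h3, Int.add_mul_emod_self_left, Int.emod_eq_of_lt (by positivity) (by exact_mod_cast hiq)]
      simp
    refine ⟨j, ?_, hgj⟩
    rw [Finset.mem_filter, Finset.mem_range]
    refine ⟨hjq, ?_⟩
    have hf1 : (m : ℝ) ≤ q * x := Int.floor_le _
    have hf2 : (q : ℝ) * x < m + 1 := Int.lt_floor_add_one _
    have h3 : ((j : ℝ) * p + m) = i + q * t := by
      have : ((j : ℤ) * p + m) = i + q * t := by linarith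
      exact_mod_cast this
    have hwj := abs_le.mp (hw j hjq)
    have e1 : (q : ℝ) * (x + j * ((p : ℝ) / q) + z j) = (q * x - m) + i + q * (t + z j) := by
      field_simp
      linear_combination h3
    have e2 : (q : ℝ) * (2 / q) = 2 := by field_simp
    have l1 : (i : ℝ) - 2 ≤ q * (w j - (t + z j)) := by
      have := mul_le_mul_of_nonneg_left hwj.1 hq0.le
      nlinarith
    have l2 : (q : ℝ) * (w j - (t + z j)) < i + 3 := by
      have := mul_le_mul_of_nonneg_left hwj.2 hq0.le
      nlinarith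
    have l3 : a ≤ w j - (t + z j) := by
      have : q * a ≤ (q : ℝ) * (w j - (t + z j)) := by nlinarith
      exact le_of_mul_le_mul_left this hq0
    have l4 : w j - (t + z j) < b := by
      have : (q : ℝ) * (w j - (t + z j)) < q * b := by nlinarith
      exact lt_of_mul_lt_mul_left this hq0.le
    have hfr : Int.fract (w j) = w j - (t + z j) := by
      rw [Int.fract_eq_iff]
      refine ⟨by linarith, by linarith, t + z j, by push_cast; ring⟩
    rw [hfr]
    exact ⟨l3, l4⟩
  have hcard := (Finset.card_le_card hsub).trans Finset.card_image_le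
  rw [Nat.card_Ico] at hcard
  have hcard' : (⌈b * q - 3⌉₊ : ℝ) - (⌈a * q + 2⌉₊ : ℝ) ≤
      (((Finset.range q).filter fun j => a ≤ Int.fract (w j) ∧ Int.fract (w j) < b).card : ℝ) := by
    have : ⌈b * q - 3⌉₊ ≤ ((Finset.range q).filter
        fun j => a ≤ Int.fract (w j) ∧ Int.fract (w j) < b).card + ⌈a * q + 2⌉₊ := by omega
    have h' : (⌈b * q - 3⌉₊ : ℝ) ≤ (((Finset.range q).filter
        fun j => a ≤ Int.fract (w j) ∧ Int.fract (w j) < b).card : ℝ) + (⌈a * q + 2⌉₊ : ℝ) := by
      exact_mod_cast this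
    linarith
  have c1 : b * q - 3 ≤ (⌈b * q - 3⌉₊ : ℝ) := Nat.le_ceil _
  have c2 : (⌈a * q + 2⌉₊ : ℝ) < a * q + 2 + 1 := Nat.ceil_lt_add_one (by positivity)
  linarith

lemma dist_pos (θ : ℝ) (hθ : Irrational θ) (Q : ℕ) :
    ∃ δ : ℝ, 0 < δ ∧ ∀ d : ℕ, 0 < d → d < Q → ∀ m : ℤ, δ ≤ |(d : ℝ) * θ - m| := by
  induction Q with
  | zero => exact ⟨1, one_pos, fun d _ h => absurd h (Nat.not_lt_zero _)⟩
  | succ Q ih =>
    obtain ⟨δ, hδ, h⟩ := ih
    by_cases hQ : Q = 0
    · exact ⟨1, one_pos, fun d h1 h2 => by omega⟩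
    have hne : (Q : ℝ) * θ - round ((Q : ℝ) * θ) ≠ 0 := by
      have : Irrational ((Q : ℝ) * θ) := hθ.natCast_mul hQ
      exact sub_ne_zero.mpr (this.ne_int _)
    refine ⟨min δ |(Q : ℝ) * θ - round ((Q : ℝ) * θ)|, lt_min hδ (abs_pos.mpr hne), ?_⟩
    intro d hd hdQ m
    rcases Nat.lt_succ_iff_lt_or_eq.mp hdQ with h1 | h1
    · exact (min_le_left _ _).trans (h d hd h1 m)
    · subst h1
      exact (min_le_right _ _).trans (round_le _ _)

lemma good_approx (θ : ℝ) (hθ : Irrational θ) (Q : ℕ) :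
    ∃ (q : ℕ) (p : ℤ), 0 < q ∧ Q ≤ q ∧ IsCoprime p (q : ℤ) ∧
      |θ - (p : ℝ) / q| ≤ 1 / ((q : ℝ) * q) := by
  obtain ⟨δ, hδ, h⟩ := dist_pos θ hθ Q
  obtain ⟨n, hn⟩ := exists_nat_one_div_lt hδ
  obtain ⟨r, hr1, hr2⟩ := Real.exists_rat_abs_sub_le_and_den_le θ (Nat.succ_pos n)
  have hden : (0 : ℝ) < r.den := by exact_mod_cast r.den_pos
  refine ⟨r.den, r.num, r.den_pos, ?_, ?_, ?_⟩
  · by_contra hlt
    push Not at hlt
    have h1 := h r.den r.den_pos hlt r.num
    have e : (r : ℝ) = (r.num : ℝ) / r.den := by exact_mod_cast (Rat.num_div_den r).symm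
    have h2 : |(r.den : ℝ) * θ - r.num| = r.den * |θ - r| := by
      rw [e, ← abs_of_pos hden, ← abs_mul, abs_of_pos hden]
      congr 1
      field_simp
    have h3 : (r.den : ℝ) * |θ - r| ≤ 1 / (n + 1) := by
      calc (r.den : ℝ) * |θ - r| ≤ r.den * (1 / (((n.succ : ℕ) + 1) * r.den)) :=
            mul_le_mul_of_nonneg_left hr1 hden.le
        _ = 1 / ((n.succ : ℕ) + 1) := by field_simp
        _ ≤ 1 / (n + 1) := by
            apply one_div_le_one_div_of_le (by positivity)
            push_cast; linarith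
    linarith
  · exact Int.isCoprime_iff_gcd_eq_one.mpr (by simpa [Int.gcd] using r.reduced)
  · have e : (r : ℝ) = (r.num : ℝ) / r.den := by exact_mod_cast (Rat.num_div_den r).symm
    rw [← e]
    refine hr1.trans ?_
    apply one_div_le_one_div_of_le (by positivity)
    apply mul_le_mul_of_nonneg_right _ hden.le
    have : (r.den : ℝ) ≤ (n.succ : ℕ) := by exact_mod_cast hr2
    linarith

lemma card_filter_add (P : ℕ → Prop) [DecidablePred P] (n m : ℕ) :
    ((Finset.range (n + m)).filter P).card =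
      ((Finset.range n).filter P).card + ((Finset.range m).filter fun j => P (n + j)).card := by
  simp only [Finset.card_filter]
  exact Finset.sum_range_add _ n m

lemma seq_lower (v : ℕ → ℝ) (θ : ℝ) (hθ : Irrational θ) (z : ℕ → ℤ)
    (h : Tendsto (fun k => v (k + 1) - v k - θ - z k) atTop (nhds 0))
    (a b : ℝ) (ha : 0 ≤ a) (hb : b ≤ 1) (ε : ℝ) (hε : 0 < ε) :
    ∀ᶠ N : ℕ in atTop, (b - a - ε) * N ≤
      (((Finset.range N).filter
        fun k => a ≤ Int.fract (v k) ∧ Int.fract (v k) < b).card : ℝ) := by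
  obtain ⟨Q, hQ⟩ := exists_nat_gt (12 / ε)
  obtain ⟨q, p, hq, hQq, hpq, happ⟩ := good_approx θ hθ Q
  have hq0 : (0 : ℝ) < q := by exact_mod_cast hq
  have hqε : 12 / ε < q := lt_of_lt_of_le hQ (by exact_mod_cast hQq)
  rw [div_lt_iff₀ hε] at hqε
  -- the errors are eventually at most `1 / q ^ 2`
  have herr : ∀ᶠ k : ℕ in atTop, |v (k + 1) - v k - θ - z k| ≤ 1 / ((q : ℝ) * q) := by
    have := (Metric.tendsto_atTop.mp h) (1 / ((q : ℝ) * q)) (by positivity)
    obtain ⟨K, hK⟩ := this
    filter_upwards [eventually_ge_atTop K] with k hk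
    have := hK k hk
    rw [Real.dist_eq, sub_zero] at this
    exact this.le
  obtain ⟨K0, hK0⟩ := eventually_atTop.mp herr
  -- blocks
  have hblock : ∀ k ≥ K0, (q : ℝ) * (b - a) - 6 ≤
      (((Finset.range q).filter fun j => a ≤ Int.fract (v (k + j)) ∧
        Int.fract (v (k + j)) < b).card : ℝ) := by
    intro k hk
    apply block_count q hq p hpq (v k) (fun j => v (k + j))
      (fun j => ∑ i ∈ Finset.range j, z (k + i)) _ a b ha hb
    intro j hj
    have hind : ∀ j : ℕ, |v (k + j) - (v k + j * θ + ((∑ i ∈ Finset.range j, z (k + i) : ℤ) : ℝ))|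
        ≤ j * (1 / ((q : ℝ) * q)) := by
      intro j
      induction j with
      | zero => simp
      | succ j ih =>
        have h1 := hK0 (k + j) (by omega)
        rw [Finset.sum_range_succ]
        push_cast at ih ⊢
        have e : v (k + (j + 1)) - (v k + (j + 1) * θ +
            (∑ i ∈ Finset.range j, (z (k + i) : ℝ) + z (k + j))) =
            (v (k + j) - (v k + j * θ + ∑ i ∈ Finset.range j, (z (k + i) : ℝ))) +
            (v (k + j + 1) - v (k + j) - θ - z (k + j)) := by
          rw [← add_assoc k j 1]; ring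
        rw [e]
        refine (abs_add_le _ _).trans ?_
        linarith
    have h1 := hind j
    have hjq : (j : ℝ) ≤ q := by exact_mod_cast hj.le
    have h2 : |(j : ℝ) * θ - j * ((p : ℝ) / q)| ≤ j * (1 / ((q : ℝ) * q)) := by
      rw [← mul_sub, abs_mul, Nat.abs_cast]
      exact mul_le_mul_of_nonneg_left happ (Nat.cast_nonneg _)
    have h3 : (j : ℝ) * (1 / ((q : ℝ) * q)) ≤ 1 / q := by
      calc (j : ℝ) * (1 / ((q : ℝ) * q)) ≤ q * (1 / ((q : ℝ) * q)) :=
            mul_le_mul_of_nonneg_right hjq (by positivity)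
        _ = 1 / q := by field_simp
    have e : v (k + j) - (v k + j * ((p : ℝ) / q) +
        ((∑ i ∈ Finset.range j, z (k + i) : ℤ) : ℝ)) =
        (v (k + j) - (v k + j * θ + ((∑ i ∈ Finset.range j, z (k + i) : ℤ) : ℝ))) +
        ((j : ℝ) * θ - j * ((p : ℝ) / q)) := by ring
    rw [e]
    refine (abs_add_le _ _).trans ?_
    have : (2 : ℝ) / q = 1 / q + 1 / q := by ring
    linarith
  -- iterate blocks
  set C : ℕ → ℕ := fun N => ((Finset.range N).filter
        fun k => a ≤ Int.fract (v k) ∧ Int.fract (v k) < b).card with hC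
  have hCadd : ∀ k ≥ K0, (C k : ℝ) + ((q : ℝ) * (b - a) - 6) ≤ C (k + q) := by
    intro k hk
    have h1 := hblock k hk
    have h2 : C (k + q) = C k + ((Finset.range q).filter fun j => a ≤ Int.fract (v (k + j)) ∧
        Int.fract (v (k + j)) < b).card := by
      simp only [hC]
      exact card_filter_add (fun k => a ≤ Int.fract (v k) ∧ Int.fract (v k) < b) k q
    rw [h2]; push_cast; linarith
  have hCmono : Monotone C := by
    intro n m hnm
    apply Finset.card_le_card
    exact Finset.filter_subset_filter _ (Finset.range_mono hnm)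
  have hCt : ∀ t : ℕ, (t : ℝ) * ((q : ℝ) * (b - a) - 6) ≤ C (K0 + t * q) := by
    intro t
    induction t with
    | zero => simp
    | succ t ih =>
      have h1 := hCadd (K0 + t * q) (by omega)
      rw [show K0 + (t + 1) * q = K0 + t * q + q by ring]
      push_cast
      linarith
  -- conclusion
  obtain ⟨M, hM⟩ := exists_nat_gt (2 * (K0 + q) / ε)
  filter_upwards [eventually_ge_atTop (max K0 M)] with N hN
  have hNK : K0 ≤ N := (le_max_left _ _).trans hN
  have hNM : M ≤ N := (le_max_right _ _).trans hN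
  by_cases hδ : (q : ℝ) * (b - a) - 6 ≤ 0
  · have h1 : b - a - ε ≤ 0 := by
      by_contra hcon
      push Not at hcon
      nlinarith
    have h2 : (b - a - ε) * (N : ℝ) ≤ 0 := mul_nonpos_of_nonpos_of_nonneg h1 (Nat.cast_nonneg _)
    exact h2.trans (Nat.cast_nonneg _)
  · push Not at hδ
    set t := (N - K0) / q with ht
    have htN : K0 + t * q ≤ N := by
      have := Nat.div_mul_le_self (N - K0) q
      rw [← ht] at this
      omega
    have htN2 : N < K0 + t * q + q := by
      have := Nat.lt_div_mul_add (a := N - K0) hq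
      rw [← ht] at this
      omega
    have h1 : (C (K0 + t * q) : ℝ) ≤ C N := by exact_mod_cast hCmono htN
    have h2 := hCt t
    have h3 : (N : ℝ) < K0 + t * q + q := by exact_mod_cast htN2
    have h4 : 2 * (K0 + q) / ε < (N : ℝ) := lt_of_lt_of_le hM (by exact_mod_cast hNM)
    rw [div_lt_iff₀ hε] at h4
    have hba : b - a ≤ 1 := by linarith
    -- t * q * (b - a - 6/q) ≥ (N - K0 - q) * (b-a-6/q)
    have e1 : (t : ℝ) * ((q : ℝ) * (b - a) - 6) = (t * q) * (b - a - 6 / q) := by
      field_simp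
    have hd0 : 0 < b - a - 6 / q := by
      have : b - a - 6 / q = ((q : ℝ) * (b - a) - 6) / q := by field_simp
      rw [this]; positivity
    have h6q : 6 / (q : ℝ) < ε / 2 := by
      rw [div_lt_iff₀ hq0]; linarith
    have h5 : ((N : ℝ) - K0 - q) * (b - a - 6 / q) ≤ (t * q) * (b - a - 6 / q) := by
      apply mul_le_mul_of_nonneg_right _ hd0.le
      linarith
    have hN0 : (0 : ℝ) ≤ N := Nat.cast_nonneg _
    have h60 : (0 : ℝ) < 6 / q := by positivity
    have h6 : (b - a - ε) * N ≤ ((N : ℝ) - K0 - q) * (b - a - 6 / q) := by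
      have hKq : (0 : ℝ) ≤ (K0 : ℝ) + q := by positivity
      have e2 : ((N : ℝ) - K0 - q) * (b - a - 6 / q) = N * (b - a) - N * (6 / q)
          - (K0 + q) * (b - a - 6 / q) := by ring
      rw [e2]
      have e3 : (K0 + q : ℝ) * (b - a - 6 / q) ≤ (K0 + q) * 1 :=
        mul_le_mul_of_nonneg_left (by linarith) hKq
      have e4 : (N : ℝ) * (6 / q) ≤ N * (ε / 2) := mul_le_mul_of_nonneg_left h6q.le hN0
      nlinarith
    calc (b - a - ε) * N ≤ _ := h6
      _ ≤ _ := h5
      _ = (t : ℝ) * ((q : ℝ) * (b - a) - 6) := e1.symm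
      _ ≤ _ := h2
      _ ≤ _ := h1

/-- If `v (k+1) - v k` tends to an irrational number modulo one, then `v` is uniformly
distributed modulo one. -/
lemma equidist (v : ℕ → ℝ) (θ : ℝ) (hθ : Irrational θ) (z : ℕ → ℤ)
    (h : Tendsto (fun k => v (k + 1) - v k - θ - z k) atTop (nhds 0))
    (a b : ℝ) (ha : 0 ≤ a) (hab : a ≤ b) (hb : b ≤ 1) :
    Tendsto (fun N : ℕ => (((Finset.range N).filter
        fun k => a ≤ Int.fract (v k) ∧ Int.fract (v k) < b).card : ℝ) / N)
      atTop (nhds (b - a)) := by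
  rw [Metric.tendsto_atTop']
  intro ε hε
  have h1 := seq_lower v θ hθ z h a b ha hb (ε / 3) (by linarith)
  have h2 := seq_lower v θ hθ z h 0 a le_rfl (hab.trans hb) (ε / 3) (by linarith)
  have h3 := seq_lower v θ hθ z h b 1 (ha.trans hab) le_rfl (ε / 3) (by linarith)
  obtain ⟨M, hM⟩ := eventually_atTop.mp ((h1.and h2).and (h3.and (eventually_ge_atTop 1)))
  refine ⟨M, fun N hN => ?_⟩
  obtain ⟨⟨g1, g2⟩, g3, g4⟩ := hM N hN.le
  have hN0 : (0 : ℝ) < N := by exact_mod_cast g4
  have hsum : ((Finset.range N).filter fun k => a ≤ Int.fract (v k) ∧ Int.fract (v k) < b).card +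
      ((Finset.range N).filter fun k => 0 ≤ Int.fract (v k) ∧ Int.fract (v k) < a).card +
      ((Finset.range N).filter fun k => b ≤ Int.fract (v k) ∧ Int.fract (v k) < 1).card ≤ N := by
    rw [← Finset.card_union_of_disjoint, ← Finset.card_union_of_disjoint]
    · calc _ ≤ (Finset.range N).card := by
            apply Finset.card_le_card
            intro k hk
            simp only [Finset.mem_union, Finset.mem_filter] at hk
            tauto
        _ = N := Finset.card_range N
    · rw [Finset.disjoint_left]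
      intro k hk hk'
      simp only [Finset.mem_union, Finset.mem_filter] at hk hk'
      rcases hk with hk | hk <;> linarith [hk.2.1, hk.2.2, hk'.2.1, hk'.2.2]
    · rw [Finset.disjoint_left]
      intro k hk hk'
      simp only [Finset.mem_filter] at hk hk'
      linarith [hk.2.1, hk.2.2, hk'.2.1, hk'.2.2]
  have hsum' : (((Finset.range N).filter
        fun k => a ≤ Int.fract (v k) ∧ Int.fract (v k) < b).card : ℝ) +
      (((Finset.range N).filter fun k => 0 ≤ Int.fract (v k) ∧ Int.fract (v k) < a).card : ℝ) +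
      (((Finset.range N).filter fun k => b ≤ Int.fract (v k) ∧ Int.fract (v k) < 1).card : ℝ)
        ≤ N := by
    exact_mod_cast hsum
  rw [Real.dist_eq, abs_lt]
  constructor
  · rw [lt_sub_iff_add_lt, lt_div_iff₀ hN0]
    nlinarith
  · rw [sub_lt_iff_lt_add, div_lt_iff₀ hN0]
    nlinarith

/-! ### The logarithm of two to base five is irrational -/

lemma irr : Irrational (-Real.logb 5 2) := by
  apply Irrational.neg
  rw [Irrational]
  rintro ⟨r, hr⟩
  have hpos : 0 < Real.logb 5 2 := Real.logb_pos (by norm_num) (by norm_num)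
  have hr0 : 0 < r := by
    have : (0 : ℝ) < r := by rw [hr]; exact hpos
    exact_mod_cast this
  have hnum : 0 < r.num := Rat.num_pos.mpr hr0
  obtain ⟨n, hn⟩ := Int.eq_ofNat_of_zero_le hnum.le
  have hn0 : n ≠ 0 := by
    rintro rfl
    rw [hn] at hnum
    exact absurd hnum (by norm_num)
  have hden : (r.den : ℝ) ≠ 0 := by exact_mod_cast r.den_nz
  have e : (r : ℝ) = (n : ℝ) / r.den := by
    have h1 : (r : ℝ) = (r.num : ℝ) / r.den := by exact_mod_cast (Rat.num_div_den r).symm
    rw [h1, hn]; norm_cast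
  have h2 : (2 : ℝ) = 5 ^ ((n : ℝ) / r.den) := by
    rw [← e, hr, Real.rpow_logb (by norm_num) (by norm_num) (by norm_num)]
  have h3 : (2 : ℝ) ^ r.den = 5 ^ n := by
    have h4 : ((2 : ℝ)) ^ (r.den : ℝ) = 5 ^ (n : ℝ) := by
      conv_lhs => rw [h2]
      rw [← Real.rpow_mul (by norm_num)]
      congr 1
      field_simp
    rw [Real.rpow_natCast, Real.rpow_natCast] at h4
    exact h4
  have h5 : 2 ^ r.den = 5 ^ n := by exact_mod_cast h3
  have h6 : 2 ∣ 5 ^ n := by
    rw [← h5]; exact dvd_pow_self 2 r.den_nz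
  have h7 := Nat.prime_two.dvd_of_dvd_pow h6
  omega

/-! ### Orbits of the `5x+1` map -/

lemma T5_pos {x : ℕ} (hx : 0 < x) : 0 < T5 x := by
  unfold T5
  split_ifs with h <;> omega

lemma iter_pos {x : ℕ} (hx : 0 < x) (k : ℕ) : 0 < T5^[k] x := by
  induction k with
  | zero => exact hx
  | succ k ih => rw [Function.iterate_succ_apply']; exact T5_pos ih

lemma tendsto_of_unbounded (x : ℕ) (h : ¬ BddAbove (Set.range fun k : ℕ => T5^[k] x)) :
    Tendsto (fun k : ℕ => T5^[k] x) atTop atTop := by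
  apply Function.Injective.nat_tendsto_atTop
  have key : ∀ i j : ℕ, i < j → T5^[i] x ≠ T5^[j] x := by
    intro i j hij he
    apply h
    have hmod : ∀ k : ℕ, i ≤ k → ∃ l, l < j ∧ T5^[k] x = T5^[l] x := by
      intro k hk
      induction k using Nat.strong_induction_on with
      | _ k ih =>
        by_cases hkj : k < j
        · exact ⟨k, hkj, rfl⟩
        · push Not at hkj
          have h1 : T5^[k] x = T5^[k - j + i] x := by
            have e1 : k = (k - j) + j := by omega
            conv_lhs => rw [e1, Function.iterate_add_apply, ← he, ← Function.iterate_add_apply]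
          obtain ⟨l, hl1, hl2⟩ := ih (k - j + i) (by omega) (by omega)
          exact ⟨l, hl1, h1.trans hl2⟩
    refine ⟨∑ l ∈ Finset.range j, T5^[l] x, ?_⟩
    rintro _ ⟨k, rfl⟩
    have hex : ∃ l, l < j ∧ T5^[k] x = T5^[l] x := by
      by_cases hk : i ≤ k
      · exact hmod k hk
      · exact ⟨k, by omega, rfl⟩
    obtain ⟨l, hl1, hl2⟩ := hex
    simp only
    rw [hl2]
    exact Finset.single_le_sum (f := fun l => T5^[l] x) (fun _ _ => Nat.zero_le _)
      (Finset.mem_range.mpr hl1)
  intro i j hij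
  rcases lt_trichotomy i j with h1 | h1 | h1
  · exact absurd hij (key i j h1)
  · exact h1
  · exact absurd hij.symm (key j i h1)

lemma log_step (x : ℕ) (hx : 0 < x) :
    ∃ z : ℤ, |Real.logb 5 (T5 x : ℕ) - Real.logb 5 (x : ℕ) - (-Real.logb 5 2) - z| ≤
      Real.logb 5 (1 + 1 / (5 * (x : ℝ))) := by
  have hx0 : (0 : ℝ) < x := by exact_mod_cast hx
  have hnn : 0 ≤ Real.logb 5 (1 + 1 / (5 * (x : ℝ))) := by
    apply Real.logb_nonneg (by norm_num)
    have : 0 < 1 / (5 * (x : ℝ)) := by positivity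
    linarith
  by_cases h : x % 2 = 0
  · refine ⟨0, ?_⟩
    have e : ((T5 x : ℕ) : ℝ) = x / 2 := by
      unfold T5
      rw [if_pos h]
      have : 2 * (x / 2) = x := by omega
      have h' : (2 : ℝ) * ((x / 2 : ℕ) : ℝ) = x := by exact_mod_cast this
      linarith
    rw [e, Real.logb_div hx0.ne' (by norm_num)]
    simpa using hnn
  · refine ⟨1, ?_⟩
    have e : ((T5 x : ℕ) : ℝ) = 5 * x * (1 + 1 / (5 * (x : ℝ))) / 2 := by
      unfold T5
      rw [if_neg h]
      have : 2 * ((5 * x + 1) / 2) = 5 * x + 1 := by omega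
      have h' : (2 : ℝ) * (((5 * x + 1) / 2 : ℕ) : ℝ) = 5 * x + 1 := by exact_mod_cast this
      field_simp
      linarith
    have hp : 1 + 1 / (5 * (x : ℝ)) ≠ 0 := by positivity
    rw [e, Real.logb_div (by positivity) (by norm_num),
      Real.logb_mul (by positivity) hp, Real.logb_mul (by norm_num) hx0.ne',
      Real.logb_self_eq_one (by norm_num)]
    have e2 : 1 + Real.logb 5 x + Real.logb 5 (1 + 1 / (5 * (x : ℝ))) - Real.logb 5 2 -
        Real.logb 5 x - -Real.logb 5 2 - ((1 : ℤ) : ℝ) =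
        Real.logb 5 (1 + 1 / (5 * (x : ℝ))) := by
      push_cast; ring
    rw [e2, abs_of_nonneg hnn]

/-- Every divergent orbit of the `5x+1` map satisfies the strong Benford law to base `5`. -/
theorem result (x₀ : ℕ) (hx₀ : 0 < x₀)
    (hdiv : ¬ BddAbove (Set.range fun k : ℕ => T5^[k] x₀))
    (a b : ℝ) (ha : 0 ≤ a) (hab : a ≤ b) (hb : b ≤ 1) :
    Tendsto
      (fun N : ℕ =>
        (((Finset.range N).filter fun k : ℕ =>
            a ≤ Int.fract (Real.logb 5 ((T5^[k] x₀ : ℕ) : ℝ)) ∧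
            Int.fract (Real.logb 5 ((T5^[k] x₀ : ℕ) : ℝ)) < b).card : ℝ) / (N : ℝ))
      atTop (nhds (b - a)) := by
  have ht := tendsto_of_unbounded x₀ hdiv
  choose z hz using fun k : ℕ => log_step (T5^[k] x₀) (iter_pos hx₀ k)
  apply equidist (fun k : ℕ => Real.logb 5 ((T5^[k] x₀ : ℕ) : ℝ)) (-Real.logb 5 2) irr z _
    a b ha hab hb
  have hlim : Tendsto (fun k : ℕ => Real.logb 5 (1 + 1 / (5 * ((T5^[k] x₀ : ℕ) : ℝ))))
      atTop (nhds 0) := by
    have h1 : Tendsto (fun k : ℕ => ((T5^[k] x₀ : ℕ) : ℝ)) atTop atTop :=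
      tendsto_natCast_atTop_atTop.comp ht
    have h2 : Tendsto (fun k : ℕ => 1 / (5 * ((T5^[k] x₀ : ℕ) : ℝ))) atTop (nhds 0) := by
      have := (h1.const_mul_atTop (show (0 : ℝ) < 5 by norm_num)).inv_tendsto_atTop
      refine this.congr (fun k => ?_)
      rw [Pi.inv_apply, one_div]
    have h3 : Tendsto (fun k : ℕ => 1 + 1 / (5 * ((T5^[k] x₀ : ℕ) : ℝ))) atTop (nhds 1) := by
      simpa using (tendsto_const_nhds (x := (1 : ℝ))).add h2
    have h4 : ContinuousAt (fun y : ℝ => Real.logb 5 y) 1 := by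
      unfold Real.logb
      exact (Real.continuousAt_log one_ne_zero).div_const _
    have h5 := h4.tendsto.comp h3
    rw [Real.logb_one] at h5
    exact h5
  rw [tendsto_zero_iff_norm_tendsto_zero]
  refine squeeze_zero (fun _ => norm_nonneg _) (fun k => ?_) hlim
  rw [Real.norm_eq_abs]
  have := hz k
  simpa [Function.iterate_succ_apply'] using this

end Pool.Agent.Results.MP_678d3c_nt.BaseFive
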